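import Pool.Agent.Helper860_Web.Main

/-!
# Linking one source vertex while keeping a web unhindered

For every unhindered web `Γ = (G, A, B)`, of any cardinality, and every `a ∈ A`, there is an `a`–`B` path `P`
such that `Γ - P` is unhindered.
-/

namespace Pool.Agent.Results.MP_f2e29e_co.LinkOneVertex

universe u

/-- A web: a directed graph with vertex set `verts` and edge relation `Adj`, and two sets `A`, `B` of
vertices. -/
structure Web (V : Type u) where
  /-- the vertices of the directed graph -/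
  verts : Set V
  /-- `Adj u v`: there is an edge from `u` to `v` (only used between vertices in `verts`) -/
  Adj : V → V → Prop
  /-- the source side -/
  A : Set V
  /-- the target side -/
  B : Set V
  A_sub : A ⊆ verts
  B_sub : B ⊆ verts

/-- A finite sequence of vertices, or an infinite one indexed by `0, 1, 2, ...`. -/
inductive VSeq (V : Type u) : Type u
  | fin (l : List V) : VSeq V
  | inf (f : ℕ → V) : VSeq V

variable {V : Type u}

/-- The set of the vertices of a sequence. -/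
def VSeq.support : VSeq V → Set V
  | .fin l => {v | v ∈ l}
  | .inf f => Set.range f

/-- `p.StartsAt v`: the first vertex of `p` is `v`. -/
def VSeq.StartsAt : VSeq V → V → Prop
  | .fin l, v => l.head? = some v
  | .inf f, v => f 0 = v

/-- `p.EndsAt v`: the sequence `p` is finite and its last vertex is `v`. -/
def VSeq.EndsAt : VSeq V → V → Prop
  | .fin l, v => l.getLast? = some v
  | .inf _, _ => False

namespace Web

/-- The paths of a web: directed and simple, finite (and nonempty) or infinite with an initial vertex and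
no terminal vertex. -/
def IsPath (Γ : Web V) : VSeq V → Prop
  | .fin l => l ≠ [] ∧ l.Nodup ∧ l.IsChain Γ.Adj ∧ ∀ v ∈ l, v ∈ Γ.verts
  | .inf f => Function.Injective f ∧ (∀ n, Γ.Adj (f n) (f (n + 1))) ∧ ∀ n, f n ∈ Γ.verts

/-- An `A`–`B` path: a finite path with first vertex in `A` and last vertex in `B`. -/
def IsABPath (Γ : Web V) (l : List V) : Prop :=
  Γ.IsPath (.fin l) ∧ (∃ x ∈ Γ.A, l.head? = some x) ∧ ∃ y ∈ Γ.B, l.getLast? = some y

/-- `S` is `A`–`B` separating: every `A`–`B` path contains a vertex of `S`. -/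
def Separates (Γ : Web V) (S : Set V) : Prop :=
  ∀ l : List V, Γ.IsABPath l → ∃ v ∈ l, v ∈ S

/-- A warp: a set of pairwise vertex-disjoint paths. -/
def IsWarp (Γ : Web V) (W : Set (VSeq V)) : Prop :=
  (∀ p ∈ W, Γ.IsPath p) ∧ ∀ p ∈ W, ∀ q ∈ W, p ≠ q → Disjoint p.support q.support

/-- The set of the initial vertices of the paths in `W`. -/
def ini (W : Set (VSeq V)) : Set V := {v | ∃ p ∈ W, p.StartsAt v}

/-- The set of the terminal vertices of the finite paths in `W`. -/
def ter (W : Set (VSeq V)) : Set V := {v | ∃ p ∈ W, p.EndsAt v}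

/-- A wave: a warp all of whose paths start in `A` and whose terminal vertices separate `A` from `B`. -/
def IsWave (Γ : Web V) (W : Set (VSeq V)) : Prop :=
  Γ.IsWarp W ∧ (∀ p ∈ W, ∃ x ∈ Γ.A, p.StartsAt x) ∧ Γ.Separates (ter W)

/-- A hindrance: a wave which does not start at all the vertices of `A`. -/
def IsHindrance (Γ : Web V) (W : Set (VSeq V)) : Prop :=
  Γ.IsWave W ∧ ini W ≠ Γ.A

/-- A web is unhindered if it contains no hindrance. -/
def Unhindered (Γ : Web V) : Prop := ¬ ∃ W : Set (VSeq V), Γ.IsHindrance W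

/-- Delete a set of vertices from a web. -/
def delete (Γ : Web V) (X : Set V) : Web V where
  verts := Γ.verts \ X
  Adj := Γ.Adj
  A := Γ.A \ X
  B := Γ.B \ X
  A_sub := fun _ h => ⟨Γ.A_sub h.1, h.2⟩
  B_sub := fun _ h => ⟨Γ.B_sub h.1, h.2⟩

end Web

open Helper860_Web

section Translate

variable {Γ : Web V} {G : Amb V}

theorem exists_path_of_esc {D S : Set V} {v : V} (h : Esc G D S v) :
    ∃ l : List V, l.Nodup ∧ l.IsChain G.adj ∧ l.head? = some v ∧ (∃ b ∈ G.B, l.getLast? = some b) ∧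
      ∀ x ∈ l, x ∈ D ∧ x ∉ S := by
  induction h with
  | @base v h1 h2 h3 =>
    refine ⟨[v], List.nodup_singleton v, List.IsChain.singleton v, rfl, ⟨v, h3, rfl⟩, ?_⟩
    intro x hx
    rw [List.mem_singleton] at hx
    exact hx ▸ ⟨h1, h2⟩
  | @step v w h1 h2 h3 _ ih =>
    obtain ⟨l, k1, k2, k3, ⟨b, hb, k4⟩, k5⟩ := ih
    by_cases hv : v ∈ l
    · obtain ⟨s, t, rfl⟩ := List.append_of_mem hv
      refine ⟨v :: t, ?_, ?_, rfl, ⟨b, hb, ?_⟩, fun x hx => k5 x (by simp at hx ⊢; tauto)⟩
      · exact (List.nodup_append.1 k1).2.1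
      · exact (List.isChain_append.1 k2).2.1
      · rw [List.getLast?_append] at k4
        simpa using k4
    · cases l with
      | nil => simp at k3
      | cons x l =>
        simp only [List.head?_cons, Option.some.injEq] at k3
        subst k3
        refine ⟨v :: x :: l, List.nodup_cons.2 ⟨hv, k1⟩, List.IsChain.cons_cons h3 k2, rfl,
          ⟨b, hb, ?_⟩, ?_⟩
        · simpa using k4
        · intro y hy
          rcases List.mem_cons.1 hy with rfl | hy
          · exact ⟨h1, h2⟩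
          · exact k5 y hy

theorem esc_of_path {D S : Set V} : ∀ (l : List V) (v : V), l.IsChain G.adj → l.head? = some v →
    (∃ b ∈ G.B, l.getLast? = some b) → (∀ x ∈ l, x ∈ D ∧ x ∉ S) → Esc G D S v := by
  intro l
  induction l with
  | nil => intro v _ h; simp at h
  | cons x l ih =>
    intro v h1 h2 h3 h4
    simp only [List.head?_cons, Option.some.injEq] at h2
    subst h2
    cases l with
    | nil =>
      obtain ⟨b, hb, h3⟩ := h3
      simp at h3
      subst h3
      exact Esc.base (h4 x (by simp)).1 (h4 x (by simp)).2 hb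
    | cons y l =>
      cases h1 with
      | cons_cons h5 h6 =>
        refine Esc.step (h4 x (by simp)).1 (h4 x (by simp)).2 h5 (ih y h6 rfl ?_ ?_)
        · obtain ⟨b, hb, h3⟩ := h3
          exact ⟨b, hb, by simpa using h3⟩
        · intro z hz
          exact h4 z (List.mem_cons_of_mem _ hz)

theorem separates_iff (hadj : Γ.Adj = G.adj) (hA : Γ.A = G.A ∩ Γ.verts) (hB : Γ.B = G.B ∩ Γ.verts)
    (S : Set V) : Γ.Separates S ↔ ∀ a ∈ G.A, a ∈ Γ.verts → ¬ Esc G Γ.verts S a := by
  constructor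
  · intro hs a ha haD he
    obtain ⟨l, k1, k2, k3, ⟨b, hb, k4⟩, k5⟩ := exists_path_of_esc he
    have hne : l ≠ [] := by rintro rfl; simp at k3
    obtain ⟨v, hv, hvS⟩ := hs l ⟨⟨hne, k1, hadj ▸ k2, fun v hv => (k5 v hv).1⟩,
      ⟨a, by rw [hA]; exact ⟨ha, haD⟩, k3⟩,
      ⟨b, by rw [hB]; exact ⟨hb, (k5 b (List.mem_of_getLast? k4)).1⟩, k4⟩⟩
    exact (k5 v hv).2 hvS
  · rintro hs l ⟨⟨hne, k1, k2, k3⟩, ⟨x, hx, k4⟩, ⟨y, hy, k5⟩⟩
    by_contra hcon
    push Not at hcon
    rw [hA] at hx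
    rw [hB] at hy
    exact hs x hx.1 hx.2 (esc_of_path l x (hadj ▸ k2) k4 ⟨y, hy.1, k5⟩
      (fun z hz => ⟨k3 z hz, hcon z hz⟩))

/-- The full paths of an internal warp. -/
def Full (W : Wp G) (l : List V) : Prop :=
  l.IsChain W.E ∧ (∃ x ∈ G.A, x ∈ W.C ∧ l.head? = some x) ∧ ∃ t ∈ W.ter, l.getLast? = some t

theorem chain_mem (W : Wp G) : ∀ (l : List V), l.IsChain W.E → (∃ x ∈ W.C, l.head? = some x) →
    ∀ v ∈ l, v ∈ W.C := by
  intro l
  induction l with
  | nil => intro _ _ v hv; simp at hv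
  | cons x l ih =>
    rintro h1 ⟨y, hy, h2⟩ v hv
    simp only [List.head?_cons, Option.some.injEq] at h2
    subst h2
    rcases List.mem_cons.1 hv with rfl | hv
    · exact hy
    · cases l with
      | nil => simp at hv
      | cons z l =>
        cases h1 with
        | cons_cons h3 h4 => exact ih h4 ⟨z, W.memR h3, rfl⟩ v hv

theorem chain_nodup (W : Wp G) {l : List V} (h : l.IsChain W.E) : l.Nodup := by
  have h1 : l.IsChain (Relation.TransGen W.E) := h.imp fun _ _ e => Relation.TransGen.single e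
  have h2 : l.Pairwise (Relation.TransGen W.E) := List.isChain_iff_pairwise.1 h1
  refine h2.imp ?_
  rintro x y hxy rfl
  exact (WellFounded.transGen W.wf).irrefl.irrefl x hxy

theorem forward_unique (W : Wp G) : ∀ (l l' : List V) (x : V), (x :: l).IsChain W.E →
    (x :: l').IsChain W.E → (∃ t ∈ W.ter, (x :: l).getLast? = some t) →
    (∃ t ∈ W.ter, (x :: l').getLast? = some t) → l = l' := by
  intro l
  induction l with
  | nil =>
    rintro l' x _ h2 ⟨t, ht, h3⟩ _
    simp at h3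
    subst h3
    cases l' with
    | nil => rfl
    | cons y l' =>
      cases h2 with
      | cons_cons h4 h5 => exact (ht.2 y h4).elim
  | cons y l ih =>
    rintro l' x h1 h2 h3 ⟨t, ht, h4⟩
    cases l' with
    | nil =>
      simp at h4
      subst h4
      cases h1 with
      | cons_cons h5 h6 => exact (ht.2 y h5).elim
    | cons y' l' =>
      cases h1 with
      | cons_cons h5 h6 =>
        cases h2 with
        | cons_cons h7 h8 =>
          have hyy := W.out h5 h7
          subst hyy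
          rw [ih l' y h6 h8 (by simpa using h3) ⟨t, ht, by simpa using h4⟩]

theorem backward_unique (W : Wp G) : ∀ (l l' : List V) (x : V), (l ++ [x]).IsChain W.E →
    (l' ++ [x]).IsChain W.E → (∃ t ∈ G.A, (l ++ [x]).head? = some t) →
    (∃ t ∈ G.A, (l' ++ [x]).head? = some t) → l = l' := by
  intro l
  induction l using List.reverseRecOn with
  | nil =>
    rintro l' x _ h2 ⟨t, ht, h3⟩ _
    simp at h3
    subst h3
    rcases List.eq_nil_or_concat l' with rfl | ⟨m, y, rfl⟩
    · rfl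
    · rw [List.isChain_append] at h2
      have := h2.2.2 y (by simp) x (by simp)
      exact (W.notA this ht).elim
  | append_singleton l y ih =>
    rintro l' x h1 h2 h3 ⟨t, ht, h4⟩
    rcases List.eq_nil_or_concat l' with rfl | ⟨m, y', rfl⟩
    · simp at h4
      subst h4
      rw [List.isChain_append] at h1
      have := h1.2.2 y (by simp) x (by simp)
      exact (W.notA this ht).elim
    · simp only [List.concat_eq_append] at h2 h4 ⊢
      rw [List.isChain_append] at h1 h2
      have e1 := h1.2.2 y (by simp) x (by simp)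
      have e2 := h2.2.2 y' (by simp) x (by simp)
      have hyy := W.inn e1 e2
      subst hyy
      obtain ⟨t', ht', h3⟩ := h3
      rw [List.head?_append_of_ne_nil _ (by simp)] at h3 h4
      rw [ih m y h1.1 h2.1 ⟨t', ht', h3⟩ ⟨t, ht, h4⟩]

theorem full_unique (W : Wp G) {l l' : List V} (h : Full W l) (h' : Full W l') {x : V}
    (hx : x ∈ l) (hx' : x ∈ l') : l = l' := by
  obtain ⟨s, t, rfl⟩ := List.append_of_mem hx
  obtain ⟨s', t', rfl⟩ := List.append_of_mem hx'
  obtain ⟨h1, ⟨p, hp, -, h2⟩, ⟨q, hq, h3⟩⟩ := h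
  obtain ⟨h1', ⟨p', hp', -, h2'⟩, ⟨q', hq', h3'⟩⟩ := h'
  have e1 : t = t' := by
    refine forward_unique W t t' x (List.isChain_append.1 h1).2.1 (List.isChain_append.1 h1').2.1
      ⟨q, hq, ?_⟩ ⟨q', hq', ?_⟩
    · rw [List.getLast?_append] at h3; simpa using h3
    · rw [List.getLast?_append] at h3'; simpa using h3'
  have e2 : s = s' := by
    have a1 : s ++ x :: t = (s ++ [x]) ++ t := by simp
    have a2 : s' ++ x :: t' = (s' ++ [x]) ++ t' := by simp
    rw [a1] at h1 h2
    rw [a2] at h1' h2'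
    refine backward_unique W s s' x (List.isChain_append.1 h1).1 (List.isChain_append.1 h1').1
      ⟨p, hp, ?_⟩ ⟨p', hp', ?_⟩
    · rwa [List.head?_append_of_ne_nil _ (by simp)] at h2
    · rwa [List.head?_append_of_ne_nil _ (by simp)] at h2'
  rw [e1, e2]

theorem exists_full (W : Wp G) {x : V} (hx : x ∈ W.C) :
    ∃ l : List V, l.IsChain W.E ∧ (∃ y ∈ G.A, y ∈ W.C ∧ l.head? = some y) ∧ l.getLast? = some x := by
  induction x using W.wf.induction with
  | _ x ih =>
    by_cases hA : x ∈ G.A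
    · exact ⟨[x], List.IsChain.singleton x, ⟨x, hA, hx, rfl⟩, rfl⟩
    · obtain ⟨u, hu⟩ := W.pre hx hA
      obtain ⟨l, h1, ⟨y, hy, hyC, h2⟩, h3⟩ := ih u hu (W.memL hu)
      refine ⟨l ++ [x], ?_, ⟨y, hy, hyC, ?_⟩, by simp⟩
      · rw [List.isChain_append]
        refine ⟨h1, List.IsChain.singleton x, ?_⟩
        intro a ha b hb
        rw [h3] at ha
        simp at ha hb
        subst ha
        subst hb
        exact hu
      · rw [List.head?_append, h2]; rfl

theorem unh_of_unhindered (hadj : Γ.Adj = G.adj) (hA : Γ.A = G.A ∩ Γ.verts)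
    (hB : Γ.B = G.B ∩ Γ.verts) (h : Γ.Unhindered) : Unh G Γ.verts := by
  intro W hW a ha haD
  by_contra haC
  apply h
  refine ⟨{p | ∃ l : List V, Full W l ∧ p = .fin l}, ⟨⟨?_, ?_⟩, ?_, ?_⟩, ?_⟩
  · rintro p ⟨l, hl, rfl⟩
    have hl0 := hl
    obtain ⟨h1, ⟨x, hx, hxC, h2⟩, h3⟩ := hl
    refine ⟨?_, chain_nodup W h1, ?_, ?_⟩
    · rintro rfl; simp at h2
    · rw [hadj]; exact h1.imp fun _ _ e => W.adj e
    · intro v hv
      exact hW.1 (chain_mem W l h1 ⟨x, hxC, h2⟩ v hv)
  · rintro p ⟨l, hl, rfl⟩ q ⟨l', hl', rfl⟩ hne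
    rw [Set.disjoint_left]
    intro x hx hx'
    exact hne (by rw [full_unique W hl hl' hx hx'])
  · rintro p ⟨l, ⟨h1, ⟨x, hx, hxC, h2⟩, h3⟩, rfl⟩
    exact ⟨x, by rw [hA]; exact ⟨hx, hW.1 hxC⟩, h2⟩
  · rw [separates_iff hadj hA hB]
    have hter : Web.ter {p | ∃ l : List V, Full W l ∧ p = .fin l} = W.ter := by
      ext t
      constructor
      · rintro ⟨p, ⟨l, ⟨h1, h2, ⟨q, hq, h3⟩⟩, rfl⟩, h4⟩
        have h4' : l.getLast? = some t := h4
        rw [h3] at h4'
        simp at h4'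
        exact h4' ▸ hq
      · intro ht
        obtain ⟨l, h1, h2, h3⟩ := exists_full W ht.1
        exact ⟨.fin l, ⟨l, ⟨h1, h2, ⟨t, ht, h3⟩⟩, rfl⟩, h3⟩
    rw [hter]
    exact hW.2
  · intro heq
    have : a ∈ Web.ini {p | ∃ l : List V, Full W l ∧ p = .fin l} := by
      rw [heq, hA]; exact ⟨ha, haD⟩
    obtain ⟨p, ⟨l, ⟨h1, ⟨x, hx, hxC, h2⟩, h3⟩, rfl⟩, h4⟩ := this
    have h4' : l.head? = some a := h4
    rw [h2] at h4'
    simp at h4'
    exact haC (h4' ▸ hxC)

/-- In a warp, a common vertex forces equality. -/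
theorem warp_unique {W : Set (VSeq V)} (hW : Γ.IsWarp W) {l l' : List V} (h : .fin l ∈ W)
    (h' : .fin l' ∈ W) {x : V} (hx : x ∈ l) (hx' : x ∈ l') : l = l' := by
  by_contra hne
  have := hW.2 _ h _ h' (by simpa using hne)
  rw [Set.disjoint_left] at this
  exact this hx hx'

theorem split_unique {s t s' t' : List V} {x : V} (hn : (s ++ x :: t).Nodup)
    (he : s ++ x :: t = s' ++ x :: t') : s = s' ∧ t = t' := by
  rw [List.nodup_append] at hn
  obtain ⟨-, h2, h3⟩ := hn
  have h4 : x ∉ s := fun h => h3 x h x (by simp) rfl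
  have h5 : x ∉ t := (List.nodup_cons.1 h2).1
  have := (List.append_cons_inj_of_notMem h4 h5).1 he
  exact ⟨this.1, this.2.2⟩

/-- The internal warp of a warp. -/
def toWp (W : Set (VSeq V)) (hadj : Γ.Adj = G.adj) (hA : Γ.A = G.A ∩ Γ.verts)
    (hW : Γ.IsWarp W) (hs : ∀ p ∈ W, ∃ x ∈ Γ.A, p.StartsAt x) : Wp G where
  C := {x | ∃ l s t, VSeq.fin l ∈ W ∧ l = s ++ x :: t ∧ ∀ y ∈ t, y ∉ G.A}
  E := fun u v => ∃ l s t, VSeq.fin l ∈ W ∧ l = s ++ u :: v :: t ∧ v ∉ G.A ∧ ∀ y ∈ t, y ∉ G.A
  adj := by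
    rintro u v ⟨l, s, t, hl, rfl, -, -⟩
    have h1 := (hW.1 _ hl).2.2.1
    have h2 := (List.isChain_append.1 h1).2.1
    rw [hadj] at h2
    cases h2 with
    | cons_cons h3 h4 => exact h3
  memL := by
    rintro u v ⟨l, s, t, hl, rfl, h1, h2⟩
    refine ⟨_, s, v :: t, hl, rfl, ?_⟩
    intro y hy
    rcases List.mem_cons.1 hy with rfl | hy
    · exact h1
    · exact h2 y hy
  memR := by
    rintro u v ⟨l, s, t, hl, rfl, h1, h2⟩
    exact ⟨_, s ++ [u], t, hl, by simp, h2⟩
  notA := by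
    rintro u v ⟨l, s, t, hl, rfl, h1, h2⟩
    exact h1
  out := by
    rintro u v w ⟨l, s, t, hl, rfl, -, -⟩ ⟨l', s', t', hl', rfl, -, -⟩
    have h1 := warp_unique hW hl hl' (x := u) (by simp) (by simp)
    have h2 := split_unique (hW.1 _ hl).2.1 h1
    have h3 := h2.2
    simp at h3
    exact h3.1
  inn := by
    rintro u v w ⟨l, s, t, hl, rfl, -, -⟩ ⟨l', s', t', hl', rfl, -, -⟩
    have h1 := warp_unique hW hl hl' (x := w) (by simp) (by simp)
    have hn := (hW.1 _ hl).2.1
    have a1 : s ++ u :: w :: t = (s ++ [u]) ++ w :: t := by simp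
    have a2 : s' ++ v :: w :: t' = (s' ++ [v]) ++ w :: t' := by simp
    rw [a1, a2] at h1
    rw [a1] at hn
    have h2 := (split_unique hn h1).1
    have h3 := List.append_inj' h2 rfl
    simpa using h3.2
  pre := by
    rintro v ⟨l, s, t, hl, rfl, h1⟩ hvA
    rcases List.eq_nil_or_concat s with rfl | ⟨s', u, rfl⟩
    · obtain ⟨x, hx, h2⟩ := hs _ hl
      have h2' : ([] ++ v :: t : List V).head? = some x := h2
      simp at h2'
      rw [hA] at hx
      exact (hvA (h2' ▸ hx.1)).elim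
    · exact ⟨u, _, s', t, hl, by simp, hvA, h1⟩
  wf := by
    have key : ∀ (n : ℕ) (s t : List V) (x : V), VSeq.fin (s ++ x :: t) ∈ W → s.length = n →
        Acc (fun u v => ∃ l s t, VSeq.fin l ∈ W ∧ l = s ++ u :: v :: t ∧ v ∉ G.A ∧
          ∀ y ∈ t, y ∉ G.A) x := by
      intro n
      induction n using Nat.strong_induction_on with
      | _ n ih =>
        intro s t x hl hs
        refine Acc.intro _ ?_
        rintro u ⟨l', s', t', hl', rfl, -, -⟩
        have h1 := warp_unique hW hl hl' (x := x) (by simp) (by simp)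
        have hn := (hW.1 _ hl).2.1
        have a2 : s' ++ u :: x :: t' = (s' ++ [u]) ++ x :: t' := by simp
        rw [a2] at h1
        have h2 := (split_unique hn h1).1
        refine ih s'.length ?_ s' (x :: t') u hl' rfl
        rw [← hs, h2]
        simp
    refine ⟨fun x => Acc.intro _ ?_⟩
    rintro u ⟨l, s, t, hl, rfl, -, -⟩
    exact key s.length s (x :: t) u hl rfl

theorem toWp_ter (W : Set (VSeq V)) (hadj : Γ.Adj = G.adj) (hA : Γ.A = G.A ∩ Γ.verts)
    (hW : Γ.IsWarp W) (hs : ∀ p ∈ W, ∃ x ∈ Γ.A, p.StartsAt x) :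
    (toWp W hadj hA hW hs).ter = Web.ter W := by
  ext x
  constructor
  · rintro ⟨⟨l, s, t, hl, rfl, h1⟩, h2⟩
    cases t with
    | nil => exact ⟨_, hl, by simp [VSeq.EndsAt]⟩
    | cons v t =>
      exact (h2 v ⟨_, s, t, hl, rfl, h1 v (by simp), fun y hy => h1 y (by simp [hy])⟩).elim
  · rintro ⟨p, hp, h1⟩
    cases p with
    | inf f => exact h1.elim
    | fin l =>
      have h1' : l.getLast? = some x := h1
      obtain ⟨s, rfl⟩ : ∃ s, l = s ++ [x] := by
        rcases List.eq_nil_or_concat l with rfl | ⟨s, y, rfl⟩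
        · simp at h1'
        · simp at h1'
          exact ⟨s, by simp [h1']⟩
      refine ⟨⟨_, s, [], hp, rfl, by simp⟩, ?_⟩
      rintro v ⟨l', s', t', hl', rfl, -, -⟩
      have h2 := warp_unique hW hp hl' (x := x) (by simp) (by simp)
      have h3 := (split_unique (hW.1 _ hp).2.1 h2).2
      simp at h3

theorem unhindered_of_unh (hadj : Γ.Adj = G.adj) (hA : Γ.A = G.A ∩ Γ.verts)
    (hB : Γ.B = G.B ∩ Γ.verts) (h : Unh G Γ.verts) : Γ.Unhindered := by
  rintro ⟨W, ⟨hW, hs, hsep⟩, hne⟩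
  have hsub : Web.ini W ⊆ Γ.A := by
    rintro v ⟨p, hp, hpv⟩
    obtain ⟨x, hx, hpx⟩ := hs p hp
    cases p with
    | fin l =>
      have h1 : l.head? = some v := hpv
      have h2 : l.head? = some x := hpx
      rw [h1] at h2
      simp at h2
      exact h2 ▸ hx
    | inf f =>
      have h1 : f 0 = v := hpv
      have h2 : f 0 = x := hpx
      rw [← h1, h2]; exact hx
  obtain ⟨a, haA, hai⟩ : ∃ a ∈ Γ.A, a ∉ Web.ini W := by
    by_contra hcon
    push Not at hcon
    exact hne (Set.Subset.antisymm hsub hcon)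
  have hwave : Helper860_Web.IsWave Γ.verts (toWp W hadj hA hW hs) := by
    refine ⟨?_, ?_⟩
    · rintro x ⟨l, s, t, hl, rfl, h1⟩
      exact (hW.1 _ hl).2.2.2 x (by simp)
    · rw [toWp_ter]
      exact (separates_iff hadj hA hB _).1 hsep
  rw [hA] at haA
  obtain ⟨l, s, t, hl, rfl, h1⟩ := h _ hwave a haA.1 haA.2
  cases s with
  | nil => exact hai ⟨_, hl, rfl⟩
  | cons x s =>
    obtain ⟨y, hy, hxy⟩ := hs _ hl
    have hxy' : (x :: s ++ a :: t).head? = some y := hxy
    simp at hxy'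
    subst hxy'
    rw [hA] at hy
    obtain ⟨l', s', t', hl', rfl, h2⟩ := h _ hwave x hy.1 hy.2
    have h3 := warp_unique hW hl hl' (x := x) (by simp) (by simp)
    have h4 := split_unique (s := []) (hW.1 _ hl).2.1 h3
    have h5 : a ∈ t' := by rw [← h4.2]; simp
    exact h2 a h5 haA.1

end Translate

/-- **Answer to the question.**  For every unhindered web `Γ = (G, A, B)` of any cardinality and every
`a ∈ A` there is an `A`–`B` path `P` starting at `a` such that `Γ - P` is unhindered. -/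
theorem result : ∀ (V : Type u) (Γ : Web V), Γ.Unhindered → ∀ a ∈ Γ.A,
    ∃ P : List V, Γ.IsABPath P ∧ P.head? = some a ∧ (Γ.delete {v | v ∈ P}).Unhindered := by
  intro V Γ hΓ a ha
  let G : Amb V := ⟨Γ.Adj, Γ.A, Γ.B⟩
  have hA : Γ.A = G.A ∩ Γ.verts := (Set.inter_eq_left.2 Γ.A_sub).symm
  have hB : Γ.B = G.B ∩ Γ.verts := (Set.inter_eq_left.2 Γ.B_sub).symm
  obtain ⟨P, h1, h2, h3, h4, ⟨b, hb, h5⟩, h6⟩ :=
    main_internal (unh_of_unhindered (G := G) rfl hA hB hΓ) ha (Γ.A_sub ha)
  refine ⟨P, ⟨⟨?_, h1, h2, h3⟩, ⟨a, ha, h4⟩, ⟨b, hb, h5⟩⟩, h4, ?_⟩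
  · rintro rfl; simp at h4
  · refine unhindered_of_unh (Γ := Γ.delete {v | v ∈ P}) (G := G) rfl ?_ ?_ h6
    · ext v
      constructor
      · rintro ⟨h7, h8⟩
        exact ⟨h7, Γ.A_sub h7, h8⟩
      · rintro ⟨h7, -, h8⟩
        exact ⟨h7, h8⟩
    · ext v
      constructor
      · rintro ⟨h7, h8⟩
        exact ⟨h7, Γ.B_sub h7, h8⟩
      · rintro ⟨h7, -, h8⟩
        exact ⟨h7, h8⟩

end Pool.Agent.Results.MP_f2e29e_co.LinkOneVertex
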